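import Pool.Agent.H3.TwoHeawood

set_option autoImplicit false

namespace Pool.Agent.Results.MP_98b297_co.TwoHeawood

open Pool.Agent.H3.FoldDefs Pool.Agent.H3.TwoHeawood

/-- A finite bigraph that is edge-transitive under its fold group but not cut-percolating. -/
theorem result : ∃ (V : Type) (_ : Finite V) (G : SimpleGraph V) (side : V → Bool),
    IsBigraph G side ∧ FoldEdgeTransitive G side ∧ ¬ CutPercolating G side :=
  ⟨V, inferInstance, G, side, fun _ _ h => h.2.1, transitive, not_percolating⟩

end Pool.Agent.Results.MP_98b297_co.TwoHeawood
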